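import Pool.Agent.Lib.MP_b5021c_nt.IfaceE5

/-!
# MP_b5021c_nt, row E5_MQ5: six circle means of `c/(1 - T z) + r/s`
-/

namespace Pool.Agent.B5.E5.H18

open Polynomial

theorem dc_rat (p s : ℂ[X]) (hs : ∀ z : ℂ, ‖z‖ ≤ 1 → s.eval z ≠ 0) :
    DiffContOnCl ℂ (fun z => p.eval z / s.eval z) (Metric.ball 0 |(1 : ℝ)|) := by
  have h : DifferentiableOn ℂ (fun z => p.eval z / s.eval z) (Metric.closedBall 0 1) := by
    apply DifferentiableOn.div
    · exact p.differentiable.differentiableOn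
    · exact s.differentiable.differentiableOn
    · intro z hz
      exact hs z (by simpa using hz)
  have h2 : closure (Metric.ball (0 : ℂ) |(1 : ℝ)|) = Metric.closedBall 0 1 := by
    rw [abs_one]
    exact closure_ball 0 one_ne_zero
  exact ⟨h.mono (by rw [abs_one]; exact Metric.ball_subset_closedBall),
    by rw [h2]; exact h.continuousOn⟩

theorem av_rat (p s : ℂ[X]) (hs : ∀ z : ℂ, ‖z‖ ≤ 1 → s.eval z ≠ 0) :
    Real.circleAverage (fun z => p.eval z / s.eval z) 0 1 = p.eval 0 / s.eval 0 :=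
  (dc_rat p s hs).circleAverage

theorem ci_rat (p s : ℂ[X]) (hs : ∀ z : ℂ, ‖z‖ ≤ 1 → s.eval z ≠ 0) :
    CircleIntegrable (fun z => p.eval z / s.eval z) 0 1 := by
  apply ContinuousOn.circleIntegrable'
  refine ContinuousOn.div ?_ ?_ ?_
  · exact p.continuous.continuousOn
  · exact s.continuous.continuousOn
  · intro z hz
    have : ‖z‖ = 1 := by simpa using hz
    exact hs z this.le

theorem ci_inv (p s : ℂ[X]) (hs : ∀ z : ℂ, ‖z‖ ≤ 1 → s.eval z ≠ 0) :
    CircleIntegrable (fun z => p.eval z⁻¹ / s.eval z⁻¹) 0 1 := by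
  apply ContinuousOn.circleIntegrable'
  have hinv : ContinuousOn (fun z : ℂ => z⁻¹) (Metric.sphere 0 |(1 : ℝ)|) := by
    apply continuousOn_inv₀.mono
    intro z hz
    have h1 : ‖z‖ = 1 := by simpa using hz
    intro h0
    have h0' : z = 0 := by simpa using h0
    rw [h0', norm_zero] at h1
    norm_num at h1
  refine ContinuousOn.div ?_ ?_ ?_
  · exact p.continuous.comp_continuousOn hinv
  · exact s.continuous.comp_continuousOn hinv
  · intro z hz
    have h1 : ‖z‖ = 1 := by simpa using hz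
    exact hs z⁻¹ (by rw [norm_inv, h1, inv_one])

theorem av2 (p₁ s₁ p₂ s₂ : ℂ[X]) (h₁ : ∀ z : ℂ, ‖z‖ ≤ 1 → s₁.eval z ≠ 0)
    (h₂ : ∀ z : ℂ, ‖z‖ ≤ 1 → s₂.eval z ≠ 0) (G : ℂ → ℂ)
    (hG : ∀ z : ℂ, ‖z‖ = 1 → G z = p₁.eval z⁻¹ / s₁.eval z⁻¹ + p₂.eval z / s₂.eval z) :
    Real.circleAverage G 0 1 = p₁.eval 0 / s₁.eval 0 + p₂.eval 0 / s₂.eval 0 := by
  have h3 : Real.circleAverage G 0 1 =
      Real.circleAverage (fun z => p₁.eval z⁻¹ / s₁.eval z⁻¹ + p₂.eval z / s₂.eval z) 0 1 := by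
    apply Real.circleAverage_congr_sphere
    intro z hz
    exact hG z (by simpa using hz)
  rw [h3, Real.circleAverage_fun_add (ci_inv p₁ s₁ h₁) (ci_rat p₂ s₂ h₂), av_rat p₂ s₂ h₂]
  congr 1
  have h4 := Real.circleAverage_zero_one_congr_inv (f := fun z : ℂ => p₁.eval z / s₁.eval z)
  rw [h4, av_rat p₁ s₁ h₁]

theorem mq5 : Mq5S := by
  intro r s T c g hT hs hg
  have hT0 : T ≠ 0 := by
    intro h
    rw [h, norm_zero] at hT
    linarith
  set τ : ℂ := T⁻¹ with hτ
  have hτ1 : ‖τ‖ ≤ 1 := by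
    rw [hτ, norm_inv]
    exact inv_le_one_of_one_le₀ hT.le
  have hs0 : s.eval 0 ≠ 0 := hs 0 (by simp)
  have hsτ : s.eval τ ≠ 0 := hs τ hτ1
  have hL : ∀ z : ℂ, ‖z‖ ≤ 1 → (X - C T : ℂ[X]).eval z ≠ 0 := by
    intro z hz h
    have h1 : z = T := by
      rw [eval_sub, eval_X, eval_C] at h
      exact sub_eq_zero.1 h
    rw [h1] at hz
    linarith
  have hL2 : ∀ z : ℂ, ‖z‖ ≤ 1 → ((X - C T : ℂ[X]) ^ 2).eval z ≠ 0 := by
    intro z hz
    rw [eval_pow]
    exact pow_ne_zero 2 (hL z hz)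
  -- facts on the circle
  have hz0 : ∀ z : ℂ, ‖z‖ = 1 → z ≠ 0 := by
    intro z hz h
    rw [h, norm_zero] at hz
    norm_num at hz
  have hzT : ∀ z : ℂ, ‖z‖ = 1 → 1 - T * z ≠ 0 := by
    intro z hz h
    have h1 : T * z = 1 := (sub_eq_zero.1 h).symm
    have h2 : ‖T * z‖ = 1 := by rw [h1, norm_one]
    rw [norm_mul, hz, mul_one] at h2
    linarith
  have hzu : ∀ z : ℂ, ‖z‖ = 1 → z⁻¹ - T ≠ 0 := by
    intro z hz h
    apply hzT z hz
    have h1 : T = z⁻¹ := (sub_eq_zero.1 h).symm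
    rw [h1, inv_mul_cancel₀ (hz0 z hz), sub_self]
  have hsz : ∀ z : ℂ, ‖z‖ = 1 → s.eval z ≠ 0 := fun z hz => hs z hz.le
  -- the quotient k
  obtain ⟨k, hk⟩ : ∃ k : ℂ[X], r * C (s.eval τ) - C (r.eval τ) * s = (1 - C T * X) * k := by
    have h1 : (r * C (s.eval τ) - C (r.eval τ) * s).IsRoot τ := by
      rw [IsRoot.def, eval_sub, eval_mul, eval_mul, eval_C, eval_C]
      ring
    obtain ⟨k0, hk0⟩ := dvd_iff_isRoot.2 h1
    refine ⟨-(C τ * k0), ?_⟩
    rw [hk0]
    have h2 : C T * C τ = (1 : ℂ[X]) := by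
      rw [← C_mul, hτ, mul_inv_cancel₀ hT0, C_1]
    linear_combination (-X * k0) * h2
  have hkz : ∀ z : ℂ, r.eval z * s.eval τ - r.eval τ * s.eval z = (1 - T * z) * k.eval z := by
    intro z
    have h1 := congrArg (eval z) hk
    simpa using h1
  -- the quotient P
  obtain ⟨P, hP⟩ : ∃ P : ℂ[X], r * C (s.eval 0) - C (r.eval 0) * s = X * P := by
    have h1 : (r * C (s.eval 0) - C (r.eval 0) * s).IsRoot 0 := by
      rw [IsRoot.def, eval_sub, eval_mul, eval_mul, eval_C, eval_C]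
      ring
    obtain ⟨P, hP⟩ := dvd_iff_isRoot.2 h1
    refine ⟨P, ?_⟩
    rw [hP, C_0, sub_zero]
  have hPz : ∀ z : ℂ, r.eval z * s.eval 0 - r.eval 0 * s.eval z = z * P.eval z := by
    intro z
    have h1 := congrArg (eval z) hP
    simpa using h1
  have hP0 : P.eval 0 = (derivative r).eval 0 * s.eval 0 - r.eval 0 * (derivative s).eval 0 := by
    have h1 := congrArg (fun p : ℂ[X] => (derivative p).eval 0) hP
    simp only [derivative_sub, derivative_mul, derivative_C, derivative_X, eval_sub, eval_add,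
      eval_mul, eval_C, eval_X, eval_one, eval_zero] at h1
    linear_combination -h1
  have hC : ∀ (a : ℂ), a ≠ 0 → ∀ z : ℂ, ‖z‖ ≤ 1 → (C a * s).eval z ≠ 0 := by
    intro a ha z hz
    rw [eval_mul, eval_C]
    exact mul_ne_zero ha (hs z hz)
  have hC2 : ∀ (a : ℂ), a ≠ 0 → ∀ z : ℂ, ‖z‖ ≤ 1 → (C a * s ^ 2).eval z ≠ 0 := by
    intro a ha z hz
    rw [eval_mul, eval_C, eval_pow]
    exact mul_ne_zero ha (pow_ne_zero 2 (hs z hz))
  refine ⟨?_, ?_, ?_, ?_, ?_, ?_⟩
  · rw [av2 (C c * X) (X - C T) r s hL hs g]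
    · simp
    · intro z hz
      have a1 := hz0 z hz
      have a2 := hzT z hz
      have a3 := hzu z hz
      have a4 := hsz z hz
      rw [hg z]
      simp only [eval_mul, eval_C, eval_X, eval_sub]
      have e1 : c / (1 - T * z) = c * z⁻¹ / (z⁻¹ - T) := by
        rw [div_eq_div_iff a2 a3]
        field_simp
      rw [e1]
  · rw [av2 (C c * X ^ 2 + C (r.eval 0 / s.eval 0) * (X * (X - C T))) (X - C T) P
      (C (s.eval 0) * s) hL (hC _ hs0) (fun z => z⁻¹ * g z)]
    · rw [hP0]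
      simp only [eval_mul, eval_C, eval_X, eval_sub, eval_add, eval_pow]
      field_simp
      ring
    · intro z hz
      have a1 := hz0 z hz
      have a2 := hzT z hz
      have a3 := hzu z hz
      have a4 := hsz z hz
      simp only [eval_mul, eval_C, eval_X, eval_sub, eval_add, eval_pow]
      rw [hg z]
      have e1 : c / (1 - T * z) = c * z⁻¹ / (z⁻¹ - T) := by
        rw [div_eq_div_iff a2 a3]
        field_simp
      have e2 : z⁻¹ * (r.eval z / s.eval z) = r.eval 0 / s.eval 0 * z⁻¹ +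
          P.eval z / (s.eval 0 * s.eval z) := by
        have h1 := hPz z
        have h2 : P.eval z = z⁻¹ * (r.eval z * s.eval 0 - r.eval 0 * s.eval z) := by
          rw [h1, inv_mul_cancel_left₀ a1]
        rw [h2]
        field_simp
        ring
      have e3 : (c * z⁻¹ ^ 2 + r.eval 0 / s.eval 0 * (z⁻¹ * (z⁻¹ - T))) / (z⁻¹ - T) =
          z⁻¹ * (c * z⁻¹ / (z⁻¹ - T)) + r.eval 0 / s.eval 0 * z⁻¹ := by
        rw [add_div]
        congr 1
        · ring
        · rw [← mul_assoc, mul_div_assoc, div_self a3, mul_one]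
      rw [mul_add, e2, e1, e3]
      ring
  · rw [av2 (C c) (X - C T) (X * r) s hL hs (fun z => z * g z)]
    · simp only [eval_mul, eval_C, eval_X, eval_sub]
      rw [zero_sub, zero_mul, zero_div, add_zero, div_neg]
    · intro z hz
      have a1 := hz0 z hz
      have a2 := hzT z hz
      have a3 := hzu z hz
      have a4 := hsz z hz
      simp only [eval_mul, eval_C, eval_X, eval_sub]
      rw [hg z]
      have e1 : z * (c / (1 - T * z)) = c / (z⁻¹ - T) := by
        rw [mul_div_assoc', div_eq_div_iff a2 a3]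
        field_simp
      rw [mul_add, e1]
      ring
  · rw [av2 (C (c / T)) (X - C T) (X ^ 2 * r - C (c / T) * X * s) s hL hs (fun z => z ^ 2 * g z)]
    · simp only [eval_mul, eval_C, eval_X, eval_sub, eval_pow]
      field_simp
      ring
    · intro z hz
      have a1 := hz0 z hz
      have a2 := hzT z hz
      have a3 := hzu z hz
      have a4 := hsz z hz
      simp only [eval_mul, eval_C, eval_X, eval_sub, eval_pow]
      rw [hg z]
      have e1 : z ^ 2 * (c / (1 - T * z)) = c / T / (z⁻¹ - T) - c / T * z := by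
        rw [eq_sub_iff_add_eq, mul_div_assoc']
        have e0 : c / T / (z⁻¹ - T) = c * z / (T * (1 - T * z)) := by
          rw [div_div, div_eq_div_iff (mul_ne_zero hT0 a3) (mul_ne_zero hT0 a2)]
          field_simp
        rw [e0, div_mul_eq_mul_div, div_add_div _ _ a2 hT0,
          div_eq_div_iff (mul_ne_zero a2 hT0) (mul_ne_zero hT0 a2)]
        ring
      have e2 : (z ^ 2 * r.eval z - c / T * z * s.eval z) / s.eval z =
          z ^ 2 * (r.eval z / s.eval z) - c / T * z := by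
        field_simp
      rw [mul_add, e1, e2]
      ring
  · rw [av2 (C (c ^ 2) * X ^ 2 + C (2 * c * (r.eval τ / s.eval τ)) * (X * (X - C T)))
      ((X - C T) ^ 2) (C (s.eval τ) * r ^ 2 + C (2 * c) * (k * s)) (C (s.eval τ) * s ^ 2) hL2
      (hC2 _ hsτ) (fun z => g z ^ 2)]
    · have h1 := hkz 0
      rw [mul_zero, sub_zero, one_mul] at h1
      simp only [eval_mul, eval_C, eval_X, eval_sub, eval_add, eval_pow, ← h1]
      field_simp
      ring
    · intro z hz
      have a1 := hz0 z hz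
      have a2 := hzT z hz
      have a3 := hzu z hz
      have a4 := hsz z hz
      simp only [eval_mul, eval_C, eval_X, eval_sub, eval_add, eval_pow]
      rw [hg z]
      have e1 : c / (1 - T * z) = c * z⁻¹ / (z⁻¹ - T) := by
        rw [div_eq_div_iff a2 a3]
        field_simp
      have e2 : r.eval z / s.eval z * (1 / (1 - T * z)) = r.eval τ / s.eval τ * (1 / (1 - T * z)) +
          k.eval z / (s.eval τ * s.eval z) := by
        have h1 := hkz z
        have h2 : k.eval z = (r.eval z * s.eval τ - r.eval τ * s.eval z) / (1 - T * z) := by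
          rw [h1, mul_div_cancel_left₀ _ a2]
        rw [h2]
        field_simp
        ring
      have e3 : (c / (1 - T * z) + r.eval z / s.eval z) ^ 2 = (c / (1 - T * z)) ^ 2 +
          2 * c * (r.eval z / s.eval z * (1 / (1 - T * z))) + (r.eval z / s.eval z) ^ 2 := by
        ring
      have e4 : (c ^ 2 * z⁻¹ ^ 2 + 2 * c * (r.eval τ / s.eval τ) * (z⁻¹ * (z⁻¹ - T))) /
          (z⁻¹ - T) ^ 2 = (c * z⁻¹ / (z⁻¹ - T)) ^ 2 +
            2 * (r.eval τ / s.eval τ) * (c * z⁻¹ / (z⁻¹ - T)) := by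
        field_simp
      have e5 : (s.eval τ * r.eval z ^ 2 + 2 * c * (k.eval z * s.eval z)) /
          (s.eval τ * s.eval z ^ 2) = (r.eval z / s.eval z) ^ 2 +
            2 * c * (k.eval z / (s.eval τ * s.eval z)) := by
        field_simp
      rw [e3, e2, e4, e5, ← e1]
      ring
  · rw [av2 (C (c ^ 2) * X + C (2 * c * (r.eval τ / s.eval τ)) * (X - C T))
      ((X - C T) ^ 2) (X * (C (s.eval τ) * r ^ 2 + C (2 * c) * (k * s))) (C (s.eval τ) * s ^ 2) hL2
      (hC2 _ hsτ) (fun z => z * g z ^ 2)]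
    · simp only [eval_mul, eval_C, eval_X, eval_sub, eval_add, eval_pow]
      field_simp
      ring
    · intro z hz
      have a1 := hz0 z hz
      have a2 := hzT z hz
      have a3 := hzu z hz
      have a4 := hsz z hz
      simp only [eval_mul, eval_C, eval_X, eval_sub, eval_add, eval_pow]
      rw [hg z]
      have e1 : c / (1 - T * z) = c * z⁻¹ / (z⁻¹ - T) := by
        rw [div_eq_div_iff a2 a3]
        field_simp
      have e2 : r.eval z / s.eval z * (1 / (1 - T * z)) = r.eval τ / s.eval τ * (1 / (1 - T * z)) +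
          k.eval z / (s.eval τ * s.eval z) := by
        have h1 := hkz z
        have h2 : k.eval z = (r.eval z * s.eval τ - r.eval τ * s.eval z) / (1 - T * z) := by
          rw [h1, mul_div_cancel_left₀ _ a2]
        rw [h2]
        field_simp
        ring
      have e3 : (c / (1 - T * z) + r.eval z / s.eval z) ^ 2 = (c / (1 - T * z)) ^ 2 +
          2 * c * (r.eval z / s.eval z * (1 / (1 - T * z))) + (r.eval z / s.eval z) ^ 2 := by
        ring
      have e4 : (c ^ 2 * z⁻¹ + 2 * c * (r.eval τ / s.eval τ) * (z⁻¹ - T)) /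
          (z⁻¹ - T) ^ 2 = z * ((c * z⁻¹ / (z⁻¹ - T)) ^ 2 +
            2 * (r.eval τ / s.eval τ) * (c * z⁻¹ / (z⁻¹ - T))) := by
        field_simp
      have e5 : z * (s.eval τ * r.eval z ^ 2 + 2 * c * (k.eval z * s.eval z)) /
          (s.eval τ * s.eval z ^ 2) = z * ((r.eval z / s.eval z) ^ 2 +
            2 * c * (k.eval z / (s.eval τ * s.eval z))) := by
        field_simp
      rw [e3, e2, e4, e5, ← e1]
      ring

end Pool.Agent.B5.E5.H18
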